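import Pool.Agent.W990.EB.Stm

set_option autoImplicit false

open Finset

namespace Pool.Agent.W381.EB

open Pool.Agent.W990.EB

/-- correlation sum -/
noncomputable def Co {ι : Type} (I : Finset ι) (m : ι → ℤ) (U : ι → ℝ) (d : ℤ) : ℝ :=
  ∑ i ∈ I, ∑ j ∈ I, if m i - m j = d then U i * U j else 0

lemma hasSum_corr {ι : Type} (I : Finset ι) (m : ι → ℤ) (U : ι → ℝ) (p q : ℤ) :
    HasSum (fun x : ℤ => fib I m U (x + p) * fib I m U (x + q)) (Co I m U (p - q)) := by
  have e : (fun x : ℤ => fib I m U (x + p) * fib I m U (x + q)) =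
      fun x : ℤ => ∑ i ∈ I, ∑ j ∈ I,
        (if m i = x + p then U i else 0) * (if m j = x + q then U j else 0) := by
    funext x
    unfold fib
    rw [Finset.sum_mul_sum]
  rw [e]
  unfold Co
  refine hasSum_sum fun i _ => hasSum_sum fun j _ => ?_
  have h := hasSum_single (f := fun x : ℤ => (if m i = x + p then U i else 0) *
    (if m j = x + q then U j else 0)) (m i - p) (by
      intro x hx
      have : m i ≠ x + p := fun h => hx (by omega)
      rw [if_neg this, zero_mul])
  convert h using 1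
  have h1 : m i = m i - p + p := by ring
  rw [if_pos h1]
  by_cases h2 : m i - m j = p - q
  · have h3 : m j = m i - p + q := by omega
    rw [if_pos h2, if_pos h3]
  · have h3 : ¬ (m j = m i - p + q) := by omega
    rw [if_neg h2, if_neg h3, mul_zero]

lemma Co_zero {ι : Type} (I : Finset ι) (m : ι → ℤ) (U : ι → ℝ) : Co I m U 0 = En I m U := by
  unfold Co En
  refine Finset.sum_congr rfl fun i _ => Finset.sum_congr rfl fun j _ => ?_
  by_cases h : m i = m j
  · rw [if_pos h, if_pos (by omega)]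
  · rw [if_neg h, if_neg (by omega)]

lemma tsum_sq {ι : Type} (I : Finset ι) (m : ι → ℤ) (U : ι → ℝ) (p q : ℤ) :
    ∑' x : ℤ, (fib I m U (x + p) - fib I m U (x + q)) ^ 2 =
      2 * En I m U - 2 * Co I m U (p - q) := by
  have h1 := hasSum_corr I m U p p
  have h2 := hasSum_corr I m U q q
  have h3 := (hasSum_corr I m U p q).mul_left 2
  rw [sub_self, Co_zero] at h1 h2
  have h := (h1.add h2).sub h3
  have e : (fun x : ℤ => (fib I m U (x + p) - fib I m U (x + q)) ^ 2) = fun x : ℤ =>
      fib I m U (x + p) * fib I m U (x + p) + fib I m U (x + q) * fib I m U (x + q) -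
        2 * (fib I m U (x + p) * fib I m U (x + q)) := by
    funext x; ring
  rw [e, h.tsum_eq]
  ring

lemma W_eq {ι : Type} (K : ℕ) (I : Finset ι) (m : ι → ℤ) (U : ι → ℝ) :
    W K I m U = En I m U - 1 / (K : ℝ) ^ 2 *
      ∑ p ∈ range K, ∑ q ∈ range K, Co I m U ((p : ℤ) - q) := by
  have e1 : ∑ p ∈ range K, ∑ q ∈ range K, Co I m U ((p : ℤ) - q) =
      ∑ i ∈ I, ∑ j ∈ I, (∑ p ∈ range K, ∑ q ∈ range K,
        (if m i - m j = (p : ℤ) - q then (1 : ℝ) else 0)) * (U i * U j) := by
    unfold Co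
    calc ∑ p ∈ range K, ∑ q ∈ range K, ∑ i ∈ I, ∑ j ∈ I,
          (if m i - m j = (p : ℤ) - q then U i * U j else 0)
        = ∑ p ∈ range K, ∑ i ∈ I, ∑ q ∈ range K, ∑ j ∈ I,
          (if m i - m j = (p : ℤ) - q then U i * U j else 0) :=
          Finset.sum_congr rfl fun p _ => Finset.sum_comm
      _ = ∑ i ∈ I, ∑ p ∈ range K, ∑ q ∈ range K, ∑ j ∈ I,
          (if m i - m j = (p : ℤ) - q then U i * U j else 0) := Finset.sum_comm
      _ = ∑ i ∈ I, ∑ p ∈ range K, ∑ j ∈ I, ∑ q ∈ range K,
          (if m i - m j = (p : ℤ) - q then U i * U j else 0) :=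
          Finset.sum_congr rfl fun i _ => Finset.sum_congr rfl fun p _ => Finset.sum_comm
      _ = ∑ i ∈ I, ∑ j ∈ I, ∑ p ∈ range K, ∑ q ∈ range K,
          (if m i - m j = (p : ℤ) - q then U i * U j else 0) :=
          Finset.sum_congr rfl fun i _ => Finset.sum_comm
      _ = _ := by
          refine Finset.sum_congr rfl fun i _ => Finset.sum_congr rfl fun j _ => ?_
          rw [Finset.sum_mul]
          refine Finset.sum_congr rfl fun p _ => ?_
          rw [Finset.sum_mul]
          refine Finset.sum_congr rfl fun q _ => ?_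
          rw [ite_mul, one_mul, zero_mul]
  rw [e1, ← Co_zero]
  unfold W Co
  rw [Finset.mul_sum, ← Finset.sum_sub_distrib]
  refine Finset.sum_congr rfl fun i _ => ?_
  rw [Finset.mul_sum, ← Finset.sum_sub_distrib]
  refine Finset.sum_congr rfl fun j _ => ?_
  unfold w
  rw [sub_mul, ite_mul, one_mul, zero_mul, mul_assoc]

/-- the form as a sum of squares -/
theorem v0 : S_V0 := by
  intro ι K I m U hK
  have hK0 : (K : ℝ) ≠ 0 := by
    have : K ≠ 0 := by omega
    exact_mod_cast this
  have e : ∑ i ∈ range K, ∑ j ∈ range K,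
      ∑' x : ℤ, (fib I m U (x + i) - fib I m U (x + j)) ^ 2 =
      2 * (K : ℝ) ^ 2 * En I m U -
        2 * ∑ i ∈ range K, ∑ j ∈ range K, Co I m U ((i : ℤ) - j) := by
    have e2 : ∀ i ∈ range K, ∑ j ∈ range K,
        ∑' x : ℤ, (fib I m U (x + i) - fib I m U (x + j)) ^ 2 =
        (K : ℝ) * (2 * En I m U) - 2 * ∑ j ∈ range K, Co I m U ((i : ℤ) - j) := by
      intro i _
      have e3 : ∀ j ∈ range K, ∑' x : ℤ, (fib I m U (x + i) - fib I m U (x + j)) ^ 2 =
          2 * En I m U - 2 * Co I m U ((i : ℤ) - j) := fun j _ => tsum_sq I m U i j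
      rw [Finset.sum_congr rfl e3, Finset.sum_sub_distrib,
        Finset.sum_const, card_range, nsmul_eq_mul, Finset.mul_sum]
    rw [Finset.sum_congr rfl e2, Finset.sum_sub_distrib, Finset.sum_const, card_range,
      nsmul_eq_mul, Finset.mul_sum]
    ring
  rw [e, W_eq]
  field_simp

end Pool.Agent.W381.EB
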